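import Pool.Agent.Lib.H92SA.Main

/-!
MP_fa3428_co, Q1: every caterpillar with at least three vertices is strongly antimagic.
The proof is described in Pool/Agent/Lib/H92SA/README.md.
-/

namespace Pool.Agent.Results.MP_fa3428_co.Caterpillars

open H92SA

/-- Every finite caterpillar with at least three vertices is strongly antimagic. -/
theorem result {V : Type*} [Fintype V] [DecidableEq V] (G : SimpleGraph V) [DecidableRel G.Adj]
    (hG : IsCaterpillar G) (hV : 3 ≤ Fintype.card V) : IsStronglyAntimagic G :=
  caterpillar_strongly_antimagic G hG hV

end Pool.Agent.Results.MP_fa3428_co.Caterpillars
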